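import Pool.Agent.J4H69.K2.Stm
import Pool.Agent.J4H69.K1.Gamma
import Pool.Agent.W175.GF.Final
import Pool.Agent.W253.GF.GTD

set_option autoImplicit false

/-! Job AXL of project K2: the Ax-Lindemann theorem for the reciprocal of the Gamma function. -/

namespace Pool.Agent.J4H45.K2

open Filter Topology Set Metric
open Pool.Agent.J4H69.K1 (rg pinvert)
open Pool.Agent.J4H69.K2 (S_AXL)

theorem iter_eval {d n : ℕ} (P : MvPolynomial (Fin d ⊕ Fin n) ℂ) (t : Fin d → ℂ) (g : Fin n → ℂ) :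
    MvPolynomial.eval g ((MvPolynomial.sumRingEquiv ℂ (Fin n) (Fin d) (MvPolynomial.rename Sum.swap P)).map
      (MvPolynomial.eval t)) = MvPolynomial.eval (Sum.elim t g) P := by
  have h : ((MvPolynomial.eval g).comp ((MvPolynomial.map (MvPolynomial.eval t)).comp
      ((MvPolynomial.sumRingEquiv ℂ (Fin n) (Fin d)).toRingHom.comp
        (MvPolynomial.rename (R := ℂ) (Sum.swap : Fin d ⊕ Fin n → Fin n ⊕ Fin d)).toRingHom))) =
      MvPolynomial.eval (Sum.elim t g) := by
    apply MvPolynomial.ringHom_ext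
    · intro a
      simp [MvPolynomial.sumRingEquiv_C]
    · rintro (i | i)
      · simp [MvPolynomial.sumRingEquiv_X_inr]
      · simp [MvPolynomial.sumRingEquiv_X_inl]
  exact congrArg (fun f : MvPolynomial (Fin d ⊕ Fin n) ℂ →+* ℂ => f P) h

theorem t_AXL : S_AXL := by
  classical
  intro d n Ω y hO hpc hne hy hQ hc hpq P hP
  obtain ⟨P', hP', hev⟩ := pinvert (fun k : Fin d ⊕ Fin n => k.isRight = true) P hP
  set P'' : MvPolynomial (Fin n) (MvPolynomial (Fin d) ℂ) :=
    MvPolynomial.sumRingEquiv ℂ (Fin n) (Fin d) (MvPolynomial.rename Sum.swap P') with hP''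
  have hne'' : P'' ≠ 0 := by
    intro h
    rw [hP'', map_eq_zero_iff _ (MvPolynomial.sumRingEquiv ℂ (Fin n) (Fin d)).injective] at h
    have h1 := MvPolynomial.rename_injective (R := ℂ) (Sum.swap : Fin d ⊕ Fin n → Fin n ⊕ Fin d)
      Sum.swap_leftInverse.injective
    exact hP' ((map_eq_zero_iff _ h1).1 h)
  obtain ⟨t, ht, hm, hz⟩ := Pool.Agent.W253.GF.gtd Pool.Agent.W175.GF.gtF d n Ω y hO hpc hne hy hQ hc hpq P'' hne''
  rw [hP'', iter_eval] at hz
  refine ⟨t, ht, fun h0 => hz ?_⟩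
  refine hev _ _ ?_ ?_ h0
  · intro s hs
    obtain ⟨i, hi⟩ := Sum.isRight_iff.1 hs
    subst hi
    simp only [Sum.elim_inr, rg]
    apply mul_inv_cancel₀
    intro h1
    rw [Complex.Gamma_eq_zero_iff] at h1
    obtain ⟨k, hk⟩ := h1
    exact hm i k hk
  · intro s hs
    obtain ⟨i, hi⟩ := Sum.isLeft_iff.1 (by
      rw [Bool.not_eq_true, Sum.isRight_eq_false] at hs
      exact hs)
    subst hi
    simp only [Sum.elim_inl]

end Pool.Agent.J4H45.K2
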