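import Pool.Agent.J4H69.K2.Stm
import Pool.Agent.J4H98.K1.Fin

set_option autoImplicit false

/-! Job FIN3 of project K2: the fibres of `z_i`, second case. -/

namespace Pool.Agent.J4H45.K2

open Filter Topology Set Metric Polynomial Bornology
open Pool.Agent.J4H69.K1
open Pool.Agent.J4H69.K2 (S_MIS2 S_HOL S_ND2 S_FIN3)
open Pool.Agent.J4H98.K1
open Pool.Agent.J4H69.AX (HasDisc HasPiece)

noncomputable section

/-! ### specialization with the derivative -/

/-- the variables `z_i, y_i` as coefficients, `z_j` as the variable -/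
def Ph : MvPolynomial (Fin 3) ℂ →+* Polynomial (MvPolynomial (Fin 3) ℂ) :=
  MvPolynomial.eval₂Hom (R := ℂ) (S₁ := Polynomial (MvPolynomial (Fin 3) ℂ))
    ((C : MvPolynomial (Fin 3) ℂ →+* Polynomial (MvPolynomial (Fin 3) ℂ)).comp MvPolynomial.C)
    ![C (MvPolynomial.X 0), X, C (MvPolynomial.X 1)]

/-- `E(z_i, z_j, y_i)[G]` as a polynomial in `z_j` over `ℂ[z_i, y_i, G]` -/
def Om : Polynomial (MvPolynomial (Fin 3) ℂ) →+* Polynomial (MvPolynomial (Fin 3) ℂ) :=
  eval₂RingHom Ph (C (MvPolynomial.X 2))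

/-- the inverse of `Om` -/
def Mo : Polynomial (MvPolynomial (Fin 3) ℂ) →+* Polynomial (MvPolynomial (Fin 3) ℂ) :=
  eval₂RingHom (MvPolynomial.eval₂Hom (R := ℂ) (S₁ := Polynomial (MvPolynomial (Fin 3) ℂ))
    ((C : MvPolynomial (Fin 3) ℂ →+* Polynomial (MvPolynomial (Fin 3) ℂ)).comp MvPolynomial.C)
    ![C (MvPolynomial.X 0), C (MvPolynomial.X 2), X]) (C (MvPolynomial.X 1))

lemma Mo_Om (E : Polynomial (MvPolynomial (Fin 3) ℂ)) : Mo (Om E) = E := by
  have h : Mo.comp Om = RingHom.id _ := by
    refine Polynomial.ringHom_ext' (MvPolynomial.ringHom_ext (fun a => ?_) (fun l => ?_)) ?_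
    · simp [Mo, Om, Ph]
    · fin_cases l <;> simp [Mo, Om, Ph]
    · simp [Mo, Om]
  exact congrArg (fun f => f E) h

lemma Om_map (c : ℂ) (E : Polynomial (MvPolynomial (Fin 3) ℂ)) :
    (Om E).map (MvPolynomial.eval ![c, rg c, deriv rg c]) = (E.map (spec c)).eval (C (deriv rg c)) := by
  have h : (mapRingHom (MvPolynomial.eval ![c, rg c, deriv rg c])).comp Om =
      (evalRingHom (C (deriv rg c))).comp (mapRingHom (spec c)) := by
    refine Polynomial.ringHom_ext' (MvPolynomial.ringHom_ext (fun a => ?_) (fun l => ?_)) ?_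
    · simp [Om, Ph, spec]
    · fin_cases l <;> simp [Om, Ph, spec]
    · simp [Om]
  exact congrArg (fun f => f E) h

lemma hol_cnt (hH : S_HOL) {E : Polynomial (MvPolynomial (Fin 3) ℂ)} (hE : E ≠ 0) :
    {c : ℂ | (E.map (spec c)).eval (C (deriv rg c)) = 0}.Countable := by
  have h0 : Om E ≠ 0 := by
    intro h
    apply hE
    rw [← Mo_Om E, h, map_zero]
  obtain ⟨n, hn⟩ : ∃ n, (Om E).coeff n ≠ 0 := by
    by_contra h
    push Not at h
    exact h0 (Polynomial.ext h)
  have h1 : NoAcc {z : ℂ | MvPolynomial.eval ![z, rg z, deriv rg z] ((Om E).coeff n) = 0} := hH _ hn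
  refine h1.countable.mono fun c hc => ?_
  have h2 : (E.map (spec c)).eval (C (deriv rg c)) = 0 := hc
  rw [← Om_map] at h2
  have h3 := congrArg (fun q => q.coeff n) h2
  simp only [coeff_map, coeff_zero] at h3
  exact h3

/-- evaluation of a relation with the derivative -/
lemma ev_nd (i j : Fin 3) (z : Fin 3 → ℂ) (E : Polynomial (MvPolynomial (Fin 3) ℂ)) (G : ℂ) :
    (E.map (MvPolynomial.eval fun k => env rg z ((![Sum.inl i, Sum.inl j, Sum.inr i] : Fin 3 → Fin 3 ⊕ Fin 3) k))).eval G =
      ((E.map (spec (z i))).eval (C G)).eval (z j) := by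
  have h : (evalRingHom G).comp (mapRingHom (MvPolynomial.eval fun k => env rg z
      ((![Sum.inl i, Sum.inl j, Sum.inr i] : Fin 3 → Fin 3 ⊕ Fin 3) k))) =
      (evalRingHom (z j)).comp ((evalRingHom (C G)).comp (mapRingHom (spec (z i)))) := by
    refine Polynomial.ringHom_ext' (MvPolynomial.ringHom_ext (fun a => ?_) (fun l => ?_)) ?_
    · simp [spec]
    · fin_cases l <;> simp [spec, env]
    · simp
  exact congrArg (fun f => f E) h

theorem t_FIN3 : S_MIS2 → S_TRN → S_HOL → S_DET → S_COM → S_ND2 → S_FIN3 := by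
  intro hMis hTrn hHol hDet hCom hNd2 T I hT hI hTI i j k hij hik hjk hInd hAlg hAlg' hNd Q₀ hQ₀ hQ₀I hdi hdj hdk hQm
    Q P P' hQI hPI hP'I hQzi hQy hPzk hPk hP'zk hP'j hQj hQk hPj hP'k hyk hJ
  classical
  -- relations
  obtain ⟨E₂, hE₂, hE₂I⟩ := hAlg (MvPolynomial.X (Sum.inr j))
  obtain ⟨E₁, hE₁, hE₁I⟩ := hAlg (MvPolynomial.X (Sum.inl k))
  obtain ⟨E₃, hE₃, hE₃I⟩ := hAlg (MvPolynomial.X (Sum.inr k))
  obtain ⟨E₄, hE₄, hE₄I⟩ := hAlg' (MvPolynomial.X (Sum.inr k))
  have hr1 : ∀ z ∈ T, (E₁.map (spec (z i))).evalEval (z j) (z k) = 0 := by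
    intro z hz
    have h := hTI z hz _ hE₁I
    rw [ev_rel] at h
    simpa [env] using h
  have hr2 : ∀ z ∈ T, (E₂.map (spec (z i))).evalEval (z j) (rg (z j)) = 0 := by
    intro z hz
    have h := hTI z hz _ hE₂I
    rw [ev_rel] at h
    simpa [env] using h
  have hr3 : ∀ z ∈ T, (E₃.map (spec (z i))).evalEval (z j) (rg (z k)) = 0 := by
    intro z hz
    have h := hTI z hz _ hE₃I
    rw [ev_rel] at h
    simpa [env] using h
  have hr4 : ∀ z ∈ T, (E₄.map (spec (z i))).evalEval (z k) (rg (z k)) = 0 := by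
    intro z hz
    have h := hTI z hz _ hE₄I
    rw [ev_rel] at h
    simpa [env] using h
  -- the product of all that must not vanish
  set J : Pol := MvPolynomial.pderiv (Sum.inl i) P * MvPolynomial.pderiv (Sum.inr i) P' -
    MvPolynomial.pderiv (Sum.inr i) P * MvPolynomial.pderiv (Sum.inl i) P' with hJd
  set α₀ : Pol := MvPolynomial.pderiv (Sum.inl j) Q * MvPolynomial.pderiv (Sum.inl k) Q *
    MvPolynomial.pderiv (Sum.inr j) P * MvPolynomial.pderiv (Sum.inr k) P' * J with hα₀
  have hα₀I : α₀ ∉ I := by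
    intro h
    rcases hI.mem_or_mem h with h | h
    · rcases hI.mem_or_mem h with h | h
      · rcases hI.mem_or_mem h with h | h
        · rcases hI.mem_or_mem h with h | h
          · exact hQj h
          · exact hQk h
        · exact hPj h
      · exact hP'k h
    · exact hJ h
  obtain ⟨A, V, hA, hAV⟩ := hNd α₀ hα₀I
  have hAT : ∀ z ∈ T, (spec (z i) A).eval (z j) =
      MvPolynomial.eval (env rg z) α₀ * MvPolynomial.eval (env rg z) V := by
    intro z hz
    have h := hTI z hz _ hAV
    rw [map_sub, map_mul, ev_spec, sub_eq_zero] at h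
    exact h
  have hQT : ∀ z ∈ T, MvPolynomial.eval z Q₀ = 0 := by
    intro z hz
    have h := hTI z hz _ hQ₀I
    rw [MvPolynomial.eval_rename] at h
    exact h
  -- the polynomials of the third case
  have hthird : ∀ v : ℚ, 0 < v → ∃ E : Polynomial (MvPolynomial (Fin 3) ℂ), E ≠ 0 ∧ ∀ z ∈ T,
      MvPolynomial.eval (env rg z) (MvPolynomial.pderiv (Sum.inl k) Q) *
        MvPolynomial.eval (env rg z) (MvPolynomial.pderiv (Sum.inr j) P) *
        (MvPolynomial.eval (env rg z) (MvPolynomial.pderiv (Sum.inl i) P') +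
          MvPolynomial.eval (env rg z) (MvPolynomial.pderiv (Sum.inr i) P') * deriv rg (z i)) * rg (z j) +
      (v : ℂ) * (MvPolynomial.eval (env rg z) (MvPolynomial.pderiv (Sum.inl j) Q) *
        MvPolynomial.eval (env rg z) (MvPolynomial.pderiv (Sum.inr k) P') *
        (MvPolynomial.eval (env rg z) (MvPolynomial.pderiv (Sum.inl i) P) +
          MvPolynomial.eval (env rg z) (MvPolynomial.pderiv (Sum.inr i) P) * deriv rg (z i)) * rg (z k)) = 0 →
      ((E.map (spec (z i))).eval (C (deriv rg (z i)))).eval (z j) = 0 := by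
    intro v hv
    set H : Pol := MvPolynomial.pderiv (Sum.inl k) Q * MvPolynomial.pderiv (Sum.inr j) P *
        MvPolynomial.X (Sum.inr j) * MvPolynomial.pderiv (Sum.inl i) P' +
      MvPolynomial.C (v : ℂ) * (MvPolynomial.pderiv (Sum.inl j) Q * MvPolynomial.pderiv (Sum.inr k) P' *
        MvPolynomial.X (Sum.inr k) * MvPolynomial.pderiv (Sum.inl i) P) with hH
    set K : Pol := MvPolynomial.pderiv (Sum.inl k) Q * MvPolynomial.pderiv (Sum.inr j) P *
        MvPolynomial.X (Sum.inr j) * MvPolynomial.pderiv (Sum.inr i) P' +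
      MvPolynomial.C (v : ℂ) * (MvPolynomial.pderiv (Sum.inl j) Q * MvPolynomial.pderiv (Sum.inr k) P' *
        MvPolynomial.X (Sum.inr k) * MvPolynomial.pderiv (Sum.inr i) P) with hK
    have hHK : H ∉ I ∨ K ∉ I := by
      by_contra hcon
      push Not at hcon
      obtain ⟨h1, h2⟩ := hcon
      have h3 : MvPolynomial.C (v : ℂ) * (MvPolynomial.pderiv (Sum.inl j) Q * MvPolynomial.pderiv (Sum.inr k) P' *
          MvPolynomial.X (Sum.inr k) * J) ∈ I := by
        have h4 : MvPolynomial.C (v : ℂ) * (MvPolynomial.pderiv (Sum.inl j) Q * MvPolynomial.pderiv (Sum.inr k) P' *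
            MvPolynomial.X (Sum.inr k) * J) =
            MvPolynomial.pderiv (Sum.inr i) P' * H - MvPolynomial.pderiv (Sum.inl i) P' * K := by
          rw [hH, hK, hJd]
          ring
        rw [h4]
        exact I.sub_mem (I.mul_mem_left _ h1) (I.mul_mem_left _ h2)
      have h5 : (MvPolynomial.C (v : ℂ) : Pol) ∉ I := by
        intro h
        apply hI.ne_top
        rw [Ideal.eq_top_iff_one]
        have hv0 : ((v : ℂ)) ≠ 0 := by exact_mod_cast hv.ne'
        have h6 := I.mul_mem_left (MvPolynomial.C ((v : ℂ)⁻¹)) h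
        rw [← MvPolynomial.C_mul, inv_mul_cancel₀ hv0, MvPolynomial.C_1] at h6
        exact h6
      rcases hI.mem_or_mem h3 with h | h
      · exact h5 h
      · rcases hI.mem_or_mem h with h | h
        · rcases hI.mem_or_mem h with h | h
          · rcases hI.mem_or_mem h with h | h
            · exact hQj h
            · exact hP'k h
          · exact hyk h
        · exact hJ h
    obtain ⟨E, hE, hEv⟩ := hNd2 I hI 3 ![Sum.inl i, Sum.inl j, Sum.inr i] hInd hAlg hNd H K hHK
    refine ⟨E, hE, fun z hz h0 => ?_⟩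
    rw [← ev_nd]
    refine hEv (env rg z) (hTI z hz) (deriv rg (z i)) ?_
    have hyj : MvPolynomial.eval (env rg z) (MvPolynomial.X (Sum.inr j)) = rg (z j) := by simp [env]
    have hykk : MvPolynomial.eval (env rg z) (MvPolynomial.X (Sum.inr k)) = rg (z k) := by simp [env]
    simp only [hH, hK, map_add, map_mul, MvPolynomial.eval_C, hyj, hykk]
    linear_combination h0
  choose! EE hEE0 hEE using hthird
  -- the exceptional sets
  have hD2 := map_spec_noAcc hTrn hE₂
  have hD4 := map_spec_noAcc hTrn hE₄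
  set DD : Set ℂ := {c | E₂.map (spec c) = 0} ∪ {c | E₄.map (spec c) = 0} with hDD
  have hDDn : NoAcc DD := hD2.union hD4
  refine ⟨DDᶜ, hDDn.closed.isOpen_compl, ?_, ?_, ?_⟩
  · by_contra hne
    rw [Set.not_nonempty_iff_eq_empty, Set.compl_empty_iff] at hne
    have h1 := hDDn.countable
    rw [hne] at h1
    exact not_countable_complex h1
  · intro c hc
    have hc2 : E₂.map (spec c) ≠ 0 := fun h => hc (Or.inl h)
    have hc4 : E₄.map (spec c) ≠ 0 := fun h => hc (Or.inr h)
    exact fibre_noAcc hij hik hjk (hTrn _ hc2) (hTrn _ hc4)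
      (fun z hz hzc => by have := hr2 z hz; rw [hzc] at this; exact this)
      (fun z hz hzc => by have := hr4 z hz; rw [hzc] at this; exact this)
  -- the countable set
  refine ⟨{a : ℂ | ∃ z : Fin 3 → ℂ, z i = a ∧ ∀ c, MvPolynomial.eval (Function.update z k c) Q₀ = 0} ∪
    {a : ℂ | ∃ z : Fin 3 → ℂ, z i = a ∧ ∀ c, MvPolynomial.eval (Function.update z j c) Q₀ = 0} ∪
    {c | E₁.map (spec c) = 0} ∪ {c | E₃.map (spec c) = 0} ∪ {c | spec c A = 0} ∪
    ⋃ v ∈ {v : ℚ | 0 < v}, {c : ℂ | ((EE v).map (spec c)).eval (C (deriv rg c)) = 0}, ?_, ?_⟩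
  · refine (((((hCom Q₀ i k hik hQ₀ hdk).union (hCom Q₀ i j hij hQ₀ hdj)).union
      (map_spec_noAcc hTrn hE₁).countable).union (map_spec_noAcc hTrn hE₃).countable).union
      (spec_noAcc hTrn hA).countable).union ?_
    exact (Set.to_countable _).biUnion fun v hv => hol_cnt hHol (hEE0 v hv)
  intro c hc hcC
  have hc2 : E₂.map (spec c) ≠ 0 := fun h => hc (Or.inl h)
  have hc4 : E₄.map (spec c) ≠ 0 := fun h => hc (Or.inr h)
  simp only [mem_union, not_or] at hcC
  obtain ⟨⟨⟨⟨⟨hck, hcj⟩, hc1⟩, hc3⟩, hcA⟩, hcE⟩ := hcC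
  have hcE' : ∀ v : ℚ, 0 < v → ((EE v).map (spec c)).eval (C (deriv rg c)) ≠ 0 := by
    intro v hv h
    apply hcE
    exact Set.mem_biUnion (x := v) hv h
  by_contra hinf
  have hinf' : {z ∈ T | z i = c}.Infinite := hinf
  set e := hinf'.natEmbedding with he
  set p : ℕ → (Fin 3 → ℂ) := fun n => (e n : Fin 3 → ℂ) with hp
  have hpinj : Function.Injective p := fun a b h => e.injective (Subtype.ext h)
  have hpT : ∀ n, p n ∈ T := fun n => (e n).2.1
  have hpi : ∀ n, p n i = c := fun n => (e n).2.2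
  have hj : Tendsto (fun n => ‖p n j‖) atTop atTop :=
    coord_tendsto hij hik hjk (hTrn _ hc2) hpinj hpi
      (fun n => by have := hr2 _ (hpT n); rw [hpi] at this; exact this)
      (fun n => hQT _ (hpT n)) hck
  have hk : Tendsto (fun n => ‖p n k‖) atTop atTop :=
    coord_tendsto hik hij hjk.symm (hTrn _ hc4) hpinj hpi
      (fun n => by have := hr4 _ (hpT n); rw [hpi] at this; exact this)
      (fun n => hQT _ (hpT n)) hcj
  -- a nonzero polynomial does not vanish at z_j for large n
  have hroot : ∀ q : Polynomial ℂ, q ≠ 0 → ∀ᶠ n in atTop, q.eval (p n j) ≠ 0 := by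
    intro q hq
    have hfin : {t : ℂ | q.IsRoot t}.Finite := Polynomial.finite_setOfPred_isRoot hq
    obtain ⟨M, hM⟩ := (hfin.image norm).bddAbove
    filter_upwards [hj.eventually_gt_atTop M] with n hn h0
    have h2 : ‖p n j‖ ≤ M := hM ⟨p n j, h0, rfl⟩
    exact absurd hn (not_lt.mpr h2)
  have hcA' : spec c A ≠ 0 := hcA
  have hne : ∀ᶠ n in atTop, MvPolynomial.eval (env rg (p n)) α₀ ≠ 0 := by
    filter_upwards [hroot _ hcA'] with n hn h0
    have h1 := hAT _ (hpT n)
    rw [h0, zero_mul, hpi] at h1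
    exact hn h1
  obtain ⟨n₀, hn₀⟩ := eventually_atTop.mp hne
  -- the polynomials of MIS2
  set Gi : ℂ := deriv rg c with hGi
  set S : Pol →+* MvPolynomial (Fin 4) ℂ := sub4 i j c with hS
  set p1 : MvPolynomial (Fin 4) ℂ := S (MvPolynomial.pderiv (Sum.inl i) P) +
    S (MvPolynomial.pderiv (Sum.inr i) P) * MvPolynomial.C Gi with hp1
  set p2 : MvPolynomial (Fin 4) ℂ := S (MvPolynomial.pderiv (Sum.inl i) P') +
    S (MvPolynomial.pderiv (Sum.inr i) P') * MvPolynomial.C Gi with hp2
  set β := S (MvPolynomial.pderiv (Sum.inl k) Q) * S (MvPolynomial.pderiv (Sum.inr j) P) * p2 with hβ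
  set γ := S (MvPolynomial.pderiv (Sum.inl j) Q) * S (MvPolynomial.pderiv (Sum.inr k) P') * p1 with hγ
  set δ := S (MvPolynomial.pderiv (Sum.inl k) Q) * (S (MvPolynomial.pderiv (Sum.inl j) P) * p2 -
      S (MvPolynomial.pderiv (Sum.inl j) P') * p1) with hδ
  have hshift : ∀ {f : ℕ → ℝ}, Tendsto f atTop atTop → Tendsto (fun n => f (n + n₀)) atTop atTop :=
    fun h => (tendsto_add_atTop_iff_nat n₀).mpr h
  have hevβ : ∀ n, MvPolynomial.eval ![p n j, p n k, rg (p n j), rg (p n k)] β =
      MvPolynomial.eval (env rg (p n)) (MvPolynomial.pderiv (Sum.inl k) Q) *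
        MvPolynomial.eval (env rg (p n)) (MvPolynomial.pderiv (Sum.inr j) P) *
        (MvPolynomial.eval (env rg (p n)) (MvPolynomial.pderiv (Sum.inl i) P') +
          MvPolynomial.eval (env rg (p n)) (MvPolynomial.pderiv (Sum.inr i) P') * deriv rg (p n i)) := by
    intro n
    simp only [hβ, hp2, map_add, map_mul, MvPolynomial.eval_C]
    simp only [hS, ev_sub4 hij hik hjk c (p n) (hpi n)]
    rw [hGi, hpi]
  have hevγ : ∀ n, MvPolynomial.eval ![p n j, p n k, rg (p n j), rg (p n k)] γ =
      MvPolynomial.eval (env rg (p n)) (MvPolynomial.pderiv (Sum.inl j) Q) *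
        MvPolynomial.eval (env rg (p n)) (MvPolynomial.pderiv (Sum.inr k) P') *
        (MvPolynomial.eval (env rg (p n)) (MvPolynomial.pderiv (Sum.inl i) P) +
          MvPolynomial.eval (env rg (p n)) (MvPolynomial.pderiv (Sum.inr i) P) * deriv rg (p n i)) := by
    intro n
    simp only [hγ, hp1, map_add, map_mul, MvPolynomial.eval_C]
    simp only [hS, ev_sub4 hij hik hjk c (p n) (hpi n)]
    rw [hGi, hpi]
  have key := hMis (fun n => p (n + n₀) j) (fun n => p (n + n₀) k) (hshift hj) (hshift hk)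
    (E₁.map (spec c)) (E₂.map (spec c)) (E₃.map (spec c)) hc1 hc2 hc3
    (fun n => by have := hr1 _ (hpT (n + n₀)); rw [hpi] at this; exact this)
    (fun n => by have := hr2 _ (hpT (n + n₀)); rw [hpi] at this; exact this)
    (fun n => by have := hr3 _ (hpT (n + n₀)); rw [hpi] at this; exact this)
    β γ δ ?_
  · rcases key with ⟨n, hn1, hn2⟩ | ⟨m, hm⟩ | ⟨v, hv, hm⟩
    · rw [hevβ] at hn1
      rw [hevγ] at hn2
      have h1 := hn₀ (n + n₀) (Nat.le_add_left _ _)
      rw [hα₀, hJd] at h1
      simp only [map_mul, map_sub] at h1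
      have hJn := right_ne_zero_of_mul h1
      have h2 := left_ne_zero_of_mul h1
      have h3 := right_ne_zero_of_mul h2
      have h4 := left_ne_zero_of_mul h2
      have h5 := right_ne_zero_of_mul h4
      have h6 := left_ne_zero_of_mul h4
      have h7 := right_ne_zero_of_mul h6
      have h8 := left_ne_zero_of_mul h6
      have ha2 := (mul_eq_zero.1 hn1).resolve_left (mul_ne_zero h7 h5)
      have ha1 := (mul_eq_zero.1 hn2).resolve_left (mul_ne_zero h8 h3)
      apply hJn
      linear_combination MvPolynomial.eval (env rg (p (n + n₀))) (MvPolynomial.pderiv (Sum.inr i) P') * ha1 -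
        MvPolynomial.eval (env rg (p (n + n₀))) (MvPolynomial.pderiv (Sum.inr i) P) * ha2
    · -- the polynomial Q₀(., X, X + m)
      set q : Polynomial ℂ := MvPolynomial.eval₂ (C : ℂ →+* Polynomial ℂ)
        (fun l => if l = k then X + C (m : ℂ) else if l = j then X else C c) Q₀ with hq
      have hqe : ∀ b : ℂ, q.eval b = MvPolynomial.eval (Function.update (Function.update (fun _ => c) j b) k (b + m)) Q₀ := by
        intro b
        have h : (evalRingHom b).comp (MvPolynomial.eval₂Hom (C : ℂ →+* Polynomial ℂ)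
            (fun l => if l = k then X + C (m : ℂ) else if l = j then X else C c)) =
            MvPolynomial.eval (Function.update (Function.update (fun _ => c) j b) k (b + m)) := by
          refine MvPolynomial.ringHom_ext (fun a => ?_) (fun l => ?_)
          · simp
          · rcases three hij hik hjk l with rfl | rfl | rfl
            · simp [hij, hik]
            · simp [hjk]
            · simp
        exact congrArg (fun f => f Q₀) h
      have hq0 : q ≠ 0 := by
        intro h
        obtain ⟨b, hb⟩ := hQm m (fun _ => c)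
        apply hb
        rw [← hqe, h, eval_zero]
      have h1 := (hroot q hq0)
      have h2 : ∀ᶠ n in atTop, q.eval (p (n + n₀) j) ≠ 0 :=
        (tendsto_add_atTop_nat n₀).eventually h1
      obtain ⟨n, hn1, hn2⟩ := (hm.and_eventually h2).exists
      apply hn2
      rw [hqe]
      have h3 := hQT _ (hpT (n + n₀))
      have h4 : Function.update (Function.update (fun _ => c) j (p (n + n₀) j)) k (p (n + n₀) j + m) = p (n + n₀) := by
        funext l
        rcases three hij hik hjk l with rfl | rfl | rfl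
        · rw [Function.update_of_ne hik, Function.update_of_ne hij, hpi]
        · rw [Function.update_of_ne hjk, Function.update_self]
        · rw [Function.update_self]
          exact hn1.symm
      rw [h4]
      exact h3
    · have h1 := hroot _ (hcE' v hv)
      have h2 : ∀ᶠ n in atTop, (((EE v).map (spec c)).eval (C (deriv rg c))).eval (p (n + n₀) j) ≠ 0 :=
        (tendsto_add_atTop_nat n₀).eventually h1
      obtain ⟨n, hn1, hn2⟩ := (hm.and_eventually h2).exists
      apply hn2
      have h3 := hEE v hv (p (n + n₀)) (hpT _)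
      rw [hpi] at h3
      apply h3
      rw [hevβ, hevγ, hpi] at hn1
      linear_combination hn1
  · intro n
    rw [hevβ, hevγ]
    set z := p (n + n₀) with hz
    have hzT : z ∈ T := hpT _
    have hzi : z i = c := hpi _
    have hR : ∀ w ∈ T, ∀ l, MvPolynomial.eval (env rg w) ((![Q, P, P'] : Fin 3 → Pol) l) = 0 := by
      intro w hw l
      fin_cases l
      · exact hTI w hw _ hQI
      · exact hTI w hw _ hPI
      · exact hTI w hw _ hP'I
    have hdet := det_zero hDet hT ![Q, P, P'] hR z hzT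
    have hdet' := det_perm hij hik hjk (fun a b => dd rg ((![Q, P, P'] : Fin 3 → Pol) a) b z) hdet
    simp only [dd, Matrix.cons_val_zero, Matrix.cons_val_one, Matrix.cons_val, hQzi, hQy, hPzk, hPk, hP'zk, hP'j, map_zero,
      zero_mul, add_zero, hzi] at hdet'
    simp only [hδ, hp1, hp2, map_add, map_sub, map_mul, MvPolynomial.eval_C]
    simp only [hS, ev_sub4 hij hik hjk c z hzi]
    simp only [hGi, hzi]
    linear_combination -hdet'

end

end Pool.Agent.J4H45.K2
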